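import Pool.Agent.Y223.G.Stm2
import Pool.Agent.Y223.G.WBase

/-!
# Weighted filtrations, products of charts, uniformizers (for the chart theorem of project G)
-/

set_option autoImplicit false

namespace Pool.Agent.Y614.WC

open Pool.Agent.Y223.G IsLocalRing Pool.Agent.W418.LU2

section filt

variable {B : Type} [CommRing B] {ι : Type} [Fintype ι] (x : ι → B) (a : ι → ℕ)

lemma FI_zero : FI x a 0 = ⊤ := by
  rw [Ideal.eq_top_iff_one]
  exact Ideal.subset_span ⟨0, by simp, by simp⟩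

lemma FI_anti {m n : ℕ} (h : m ≤ n) : FI x a n ≤ FI x a m := by
  apply Ideal.span_mono
  rintro y ⟨e, he, rfl⟩
  exact ⟨e, h.trans he, rfl⟩

lemma FI_mul {m n : ℕ} {y z : B} (hy : y ∈ FI x a m) (hz : z ∈ FI x a n) :
    y * z ∈ FI x a (m + n) := by
  have h1 : FI x a m * FI x a n ≤ FI x a (m + n) := by
    unfold FI
    rw [Ideal.span_mul_span', Ideal.span_le]
    rintro _ ⟨_, ⟨e, he, rfl⟩, _, ⟨f, hf, rfl⟩, rfl⟩
    refine Ideal.subset_span ⟨e + f, ?_, ?_⟩
    · simp only [Pi.add_apply, mul_add, Finset.sum_add_distrib]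
      omega
    · simp only [Pi.add_apply, pow_add, Finset.prod_mul_distrib]
  exact h1 (Ideal.mul_mem_mul hy hz)

lemma FI_gen (i : ι) : x i ∈ FI x a (a i) := by
  classical
  refine Ideal.subset_span ⟨Pi.single i 1, ?_, ?_⟩
  · rw [Finset.sum_eq_single i]
    · simp
    · intro j _ hj
      rw [Pi.single_eq_of_ne hj, mul_zero]
    · intro h; exact absurd (Finset.mem_univ _) h
  · rw [Finset.prod_eq_single i]
    · simp
    · intro j _ hj
      rw [Pi.single_eq_of_ne hj, pow_zero]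
    · intro h; exact absurd (Finset.mem_univ _) h

end filt

section sub

variable {k K : Type} [CommRing k] [Field K] [Algebra k K]

/-- The coefficients of a filtered algebra. -/
lemma coeff_filt (F : ℕ → Set K) (h0 : ∀ n, (0 : K) ∈ F n)
    (hadd : ∀ n x y, x ∈ F n → y ∈ F n → x + y ∈ F n)
    (hmul : ∀ m n x y, x ∈ F m → y ∈ F n → x * y ∈ F (m + n))
    (hanti : ∀ m n, m ≤ n → F n ⊆ F m) (halg : ∀ r : k, algebraMap k K r ∈ F 0)
    (S : Set (LP K)) (hS : ∀ f ∈ S, ∃ (d : ℤ) (x : K), x ∈ F d.toNat ∧ f = hm d x)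
    (f : LP K) (hf : f ∈ Algebra.adjoin k S) (d : ℤ) : f.coeff d ∈ F d.toNat := by
  classical
  let D : Subalgebra k (LP K) :=
    { carrier := {f | ∀ d : ℤ, f.coeff d ∈ F d.toNat}
      mul_mem' := by
        intro f g hf hg d
        rw [eq_sum_hm f, eq_sum_hm g, Finset.sum_mul_sum, AddMonoidAlgebra.coeff_sum,
          Finsupp.finsetSum_apply]
        refine Finset.sum_induction _ (· ∈ F d.toNat) (hadd _) (h0 _) fun a _ => ?_
        rw [AddMonoidAlgebra.coeff_sum, Finsupp.finsetSum_apply]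
        refine Finset.sum_induction _ (· ∈ F d.toNat) (hadd _) (h0 _) fun b _ => ?_
        rw [hm_mul, coeff_hm]
        split_ifs with hab
        · refine hanti _ _ ?_ (hmul _ _ _ _ (hf a) (hg b))
          omega
        · exact h0 _
      add_mem' := by
        intro f g hf hg d
        rw [AddMonoidAlgebra.coeff_add, Finsupp.add_apply]
        exact hadd _ _ _ (hf d) (hg d)
      algebraMap_mem' := by
        intro r d
        rw [algebraMap_LP, coeff_hm]
        split_ifs with hd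
        · rw [← hd]
          exact halg r
        · exact h0 _ }
  have hle : Algebra.adjoin k S ≤ D := by
    rw [Algebra.adjoin_le_iff]
    intro f hf d
    obtain ⟨e, x, hx, rfl⟩ := hS f hf
    rw [coeff_hm]
    split_ifs with hd
    · rw [← hd]
      exact hx
    · exact h0 _
  exact hle hf d

end sub

section ft

lemma fg_iSup {R A : Type} [CommRing R] [CommRing A] [Algebra R A] {n : ℕ}
    (S : Fin n → Subalgebra R A) (hS : ∀ i, (S i).FG) : (⨆ i, S i).FG := by
  induction n with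
  | zero =>
    rw [iSup_of_empty]
    exact Subalgebra.fg_bot
  | succ n ih =>
    have h1 : (⨆ i, S i) = S 0 ⊔ ⨆ i : Fin n, S i.succ := by
      apply le_antisymm
      · refine iSup_le fun i => ?_
        refine Fin.cases ?_ ?_ i
        · exact le_sup_left
        · intro j
          exact (le_iSup (fun i : Fin n => S i.succ) j).trans le_sup_right
      · refine sup_le (le_iSup S 0) (iSup_le fun i => le_iSup S i.succ)
    rw [h1]
    exact (hS 0).sup (ih _ fun i => hS i.succ)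

end ft

section ded

variable {O : Type} [CommRing O] [IsDomain O] [IsDedekindDomain O]

/-- A uniformizer generates the prime locally. -/
lemma exists_unif {𝔓 : Ideal O} {π : O} (h1 : π ∈ 𝔓) (h2 : π ∉ 𝔓 ^ 2) :
    ∃ a : O, a ∉ 𝔓 ∧ ∀ e ∈ 𝔓, ∃ b, a * e = π * b := by
  have h3 : 𝔓 ∣ Ideal.span {π} := by
    rw [Ideal.dvd_iff_le, Ideal.span_singleton_le_iff_mem]
    exact h1
  obtain ⟨𝔞, h𝔞⟩ := h3
  have h4 : ¬ 𝔞 ≤ 𝔓 := by
    intro h
    apply h2
    have h5 : π ∈ 𝔓 * 𝔞 := by
      rw [← h𝔞]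
      exact Ideal.mem_span_singleton_self π
    rw [pow_two]
    exact Ideal.mul_mono_right h h5
  obtain ⟨a, ha, ha'⟩ := Set.not_subset.1 h4
  refine ⟨a, ha', fun e he => ?_⟩
  have h6 : e * a ∈ Ideal.span {π} := by
    rw [h𝔞]
    exact Ideal.mul_mem_mul he ha
  obtain ⟨b, hb⟩ := Ideal.mem_span_singleton.1 h6
  exact ⟨b, by rw [mul_comm, hb]⟩

/-- The powers of the prime in a local ring over it. -/
lemma map_pow_le {B : Type} [CommRing B] {𝔓 : Ideal O} {π : O} (h1 : π ∈ 𝔓) (h2 : π ∉ 𝔓 ^ 2)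
    (f : O →+* B) (hf : ∀ a, a ∉ 𝔓 → IsUnit (f a)) (n : ℕ) {e : O} (he : e ∈ 𝔓 ^ n) :
    ∃ c, f e = f π ^ n * c := by
  obtain ⟨a, ha, hab⟩ := exists_unif h1 h2
  have h3 : 𝔓.map f ≤ Ideal.span {f π} := by
    rw [Ideal.map_le_iff_le_comap]
    intro x hx
    rw [Ideal.mem_comap, Ideal.mem_span_singleton]
    obtain ⟨b, hb⟩ := hab x hx
    obtain ⟨u, hu⟩ := (hf a ha).exists_left_inv
    refine ⟨u * f b, ?_⟩
    have h4 : f a * f x = f π * f b := by rw [← map_mul, hb, map_mul]
    calc f x = (u * f a) * f x := by rw [hu, one_mul]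
      _ = u * (f a * f x) := by ring
      _ = f π * (u * f b) := by rw [h4]; ring
  have h5 : f e ∈ Ideal.span {f π ^ n} := by
    rw [← Ideal.span_singleton_pow]
    refine Ideal.pow_right_mono h3 n ?_
    rw [← Ideal.map_pow]
    exact Ideal.mem_map_of_mem f he
  obtain ⟨c, hc⟩ := Ideal.mem_span_singleton.1 h5
  exact ⟨c, hc⟩

/-- An element on which `t - 1` has the least possible order is a uniformizer. -/
lemma not_mem_sq {𝔓 : Ideal O} {l : ℕ} (t : O →+* O) (ht : ∀ o, t o - o ∈ 𝔓 ^ (l + 1)) {π : O}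
    (h : t π - π ∉ 𝔓 ^ (l + 2)) : π ∉ 𝔓 ^ 2 := by
  intro h2
  apply h
  have key : ∀ x ∈ 𝔓, ∀ y ∈ 𝔓, t (x * y) - x * y ∈ 𝔓 ^ (l + 2) := by
    intro x hx y hy
    have hy' : t y ∈ 𝔓 := by
      have h3 : t y = (t y - y) + y := by ring
      rw [h3]
      exact 𝔓.add_mem (Ideal.pow_le_self (Nat.succ_ne_zero l) (ht y)) hy
    have h4 : t (x * y) - x * y = (t x - x) * t y + (t y - y) * x := by
      rw [map_mul]; ring
    rw [h4]
    refine Ideal.add_mem _ ?_ ?_
    · rw [pow_succ]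
      exact Ideal.mul_mem_mul (ht x) hy'
    · rw [pow_succ]
      exact Ideal.mul_mem_mul (ht y) hx
  rw [pow_two] at h2
  refine Submodule.mul_induction_on h2 key ?_
  intro x y hx hy
  have h5 : t (x + y) - (x + y) = (t x - x) + (t y - y) := by rw [map_add]; ring
  rw [h5]
  exact Ideal.add_mem _ hx hy

end ded

end Pool.Agent.Y614.WC
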