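import Pool.Agent.Y614.WC.B

/-!
# The weighted filtration near a point of the centre
-/

set_option autoImplicit false
set_option linter.unusedSectionVars false
set_option linter.overlappingInstances false

namespace Pool.Agent.Y614.WC

open Pool.Agent.Y223.G IsLocalRing Pool.Agent.W418.LU2

set_option maxHeartbeats 400000

section df

variable {B B' : Type} [CommRing B] [CommRing B'] (g : B →+* B') (σ : B → B) (σ' : B' → B')

lemma df_iter_map (h : ∀ x, σ' (g x) = g (σ x)) (n : ℕ) (x : B) :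
    (df σ')^[n] (g x) = g ((df σ)^[n] x) := by
  induction n with
  | zero => rfl
  | succ n ih =>
    rw [Function.iterate_succ_apply', Function.iterate_succ_apply', ih]
    change σ' _ - _ = g (σ _ - _)
    rw [h, map_sub]

lemma iter_map (h : ∀ x, σ' (g x) = g (σ x)) (n : ℕ) (x : B) :
    σ'^[n] (g x) = g (σ^[n] x) := by
  induction n with
  | zero => rfl
  | succ n ih => rw [Function.iterate_succ_apply', Function.iterate_succ_apply', ih, h]

lemma wx_map (h : ∀ x, σ' (g x) = g (σ x)) (p r : ℕ) (π : B) (u : Fin r → B) (i : WI r p) :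
    wx σ' p (g π) (fun j => g (u j)) i = g (wx σ p π u i) := by
  cases i with
  | none => rfl
  | some ja => exact df_iter_map g σ σ' h _ _

end df

section filtr

variable {k O K : Type} [CommRing k] [CommRing O] [IsDomain O]
  [IsDedekindDomain O] [Field K] [Algebra k O] [Algebra O K] [Algebra k K] [IsScalarTower k O K]
  {p : ℕ} {τ : K ≃ₐ[k] K} {t : O ≃ₐ[k] O} {𝔓 : Ideal O} {l : ℕ}

/-- The iterates of `σ - 1` in the weighted filtration. -/
theorem filtr (hUNR : S_UNR) (hTAY : S_TAY)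
    (hW : WSet k O K p τ t 𝔓 l) {A : ℕ → Subalgebra O K}
    (hA : ∀ i x, x ∈ A i → τ x ∈ A (i + 1)) (hp : ∀ i, A (i + p) = A i)
    (hrg : IsRegularRing (CC A p))
    (hC : ∀ c ∈ CC A p, τ c ∈ CC A p) (Q : Ideal (CC A p)) [Q.IsPrime]
    (hσ : ∀ c, sg τ (CC A p) hC c - c ∈ Q) (hQ : Q.comap (algebraMap O (CC A p)) = 𝔓)
    {π : O} {r : ℕ} {u : Fin r → A 0} (hπ : π ∈ 𝔓) (hπ2 : π ∉ 𝔓 ^ 2)
    (hun : UNQ (A 0) (Q.comap (Subalgebra.inclusion (le_CC A hW.pp.pos) : A 0 →+* CC A p)) u) :
    (∀ (n : ℕ) (e : O), e ∈ 𝔓 ^ n →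
      ∃ c, algebraMap (CC A p) (Localization.AtPrime Q) (algebraMap O (CC A p) e) =
      algebraMap (CC A p) (Localization.AtPrime Q) (algebraMap O (CC A p) π) ^ n * c) ∧
    ∀ a, a < p → ∀ c : CC A p, algebraMap (CC A p) (Localization.AtPrime Q)
      ((df (sg τ (CC A p) hC))^[a] c) ∈ FI (fun i => algebraMap (CC A p) (Localization.AtPrime Q)
        (wx (sg τ (CC A p) hC) p (algebraMap O (CC A p) π)
          (fun j => Subalgebra.inclusion (le_CC A hW.pp.pos) (u j)) i)) (wv l r p) (wt l a) := by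
  have h0 := hW.pp.pos
  let C := CC A p
  let B := Localization.AtPrime Q
  let σ : C →+* C := sg τ (CC A p) hC
  let g : C →+* B := algebraMap (CC A p) (Localization.AtPrime Q)
  let u' : Fin r → C := fun j => Subalgebra.inclusion (le_CC A hW.pp.pos) (u j)
  let f : O →+* B := g.comp (algebraMap O C)
  have hunit : ∀ a, a ∉ 𝔓 → IsUnit (f a) := by
    intro a ha
    refine IsLocalization.map_units (M := Q.primeCompl) B (⟨algebraMap O C a, ?_⟩ : Q.primeCompl)
    intro h
    apply ha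
    rw [← hQ]
    exact h
  have hpow : ∀ (n : ℕ) (e : O), e ∈ 𝔓 ^ n → ∃ c, f e = f π ^ n * c := fun n e he =>
    map_pow_le hπ hπ2 f hunit n he
  refine ⟨hpow, ?_⟩
  have hcomap : Q = Q.comap σ := by
    ext c
    exact (mem_iff_of_sub_mem (hσ c)).symm
  let σQ : B →+* B := Localization.localRingHom Q Q σ hcomap
  have hσQ : ∀ c, σQ (g c) = g (σ c) := fun c => Localization.localRingHom_to_map Q Q σ hcomap c
  have hcom : ∀ o, σ (algebraMap O C o) = algebraMap O C (t o) := by
    intro o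
    apply Subtype.ext
    exact hW.com o
  have hord : ∀ c, σ^[p] c = c := by
    intro c
    apply Subtype.ext
    rw [sg_iter]
    exact hW.ord _
  have hordQ : ∀ x : B, σQ^[p] x = x := by
    have h1 : (σQ ^ p) = RingHom.id B := by
      apply IsLocalization.ringHom_ext Q.primeCompl
      ext c
      change (σQ ^ p) (g c) = g c
      rw [RingHom.coe_pow, iter_map g σ σQ hσQ, hord]
    intro x
    rw [← RingHom.coe_pow, h1]
    rfl
  let J : Ideal B := Ideal.span ({f π ^ (max l 1)} ∪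
    {y | ∃ j a, 1 ≤ a ∧ a < p ∧ y = (df σQ)^[a] (g (u' j))})
  have hJ1 : ∀ c, g (σ c - c) ∈ J := by
    refine hUNR O K A p h0 C rfl inferInstance σ t hcom (le_CC' hp h0) ?_ ?_ hord Q hσ r u hun J
      ?_ ?_
    · intro i x hx
      exact hA i _ hx
    · intro i x hx
      obtain ⟨y, hy, hyx⟩ := tau_surj hA hp h0 hW.ord i x hx
      exact ⟨⟨y, le_CC' hp h0 i hy⟩, hy, Subtype.ext hyx⟩
    · intro o
      obtain ⟨c, hc⟩ := hpow (l + 1) _ (hW.dv o)
      have h1 : l + 1 = max l 1 + (l + 1 - max l 1) := by omega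
      change f (t o - o) ∈ J
      rw [hc, h1, pow_add, mul_assoc]
      exact J.mul_mem_right _ (Ideal.subset_span (Or.inl rfl))
    · intro j a ha ha'
      refine Ideal.subset_span (Or.inr ⟨j, a, ha, ha', ?_⟩)
      exact (df_iter_map g σ σQ hσQ _ _).symm
  have hJ2 : ∀ x : B, σQ x - x ∈ J := by
    have h1 : (Ideal.Quotient.mk J).comp σQ = Ideal.Quotient.mk J := by
      apply IsLocalization.ringHom_ext Q.primeCompl
      ext c
      change Ideal.Quotient.mk J (σQ (g c)) = Ideal.Quotient.mk J (g c)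
      rw [Ideal.Quotient.eq, hσQ, ← map_sub]
      exact hJ1 c
    intro x
    rw [← Ideal.Quotient.eq]
    exact congrArg (fun φ : B →+* B ⧸ J => φ x) h1
  have hπ3 : ∃ c, σQ (f π) - f π = f π ^ (l + 1) * c := by
    obtain ⟨c, hc⟩ := hpow (l + 1) _ (hW.dv π)
    have h5 : σQ (f π) = f (t π) := (hσQ (algebraMap O C π)).trans (congrArg g (hcom π))
    refine ⟨c, ?_⟩
    rw [← hc, map_sub, h5]
  have hpp : ∃ c, (p : B) = f π ^ ((p - 1) * l) * c := by
    obtain ⟨c, hc⟩ := hpow _ _ hW.pl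
    exact ⟨c, by rw [← hc, map_natCast]⟩
  intro a ha c
  have h2 := hTAY B σQ p l r (f π) (fun j => g (u' j)) hW.pp hordQ hπ3 hpp hJ2 a ha (g c)
  rw [df_iter_map g σ σQ hσQ] at h2
  have h3 : (wx σQ p (f π) fun j => g (u' j)) = fun i => g (wx σ p (algebraMap O C π) u' i) := by
    funext i
    exact wx_map g σ σQ hσQ p r (algebraMap O C π) u' i
  rw [h3] at h2
  exact h2

end filtr

end Pool.Agent.Y614.WC
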