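import Pool.Agent.Y614.WC.C
import Pool.Agent.Y614.WC.D

/-!
# The weighted blowup of a chart
-/

set_option autoImplicit false
set_option linter.unusedSectionVars false
set_option linter.overlappingInstances false

namespace Pool.Agent.Y614.WC

open Pool.Agent.Y223.G IsLocalRing Pool.Agent.W418.LU2

set_option maxHeartbeats 400000

section

variable {k O K : Type} [CommRing k] [CommRing O] [IsDomain O]
  [IsDedekindDomain O] [Field K] [Algebra k O] [Algebra O K] [Algebra k K] [IsScalarTower k O K]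
  {p : ℕ} {τ : K ≃ₐ[k] K} {t : O ≃ₐ[k] O} {𝔓 : Ideal O} {l : ℕ}

/-- A filtration which contains the generators contains the graded algebra. -/
theorem filt_gen {C : Subalgebra O K} {B : Type} [CommRing B] (g : C →+* B) {ι : Type} [Fintype ι]
    (X : ι → B) (a : ι → ℕ) (h1 : ∀ e ∈ 𝔓, g (algebraMap O C e) ∈ FI X a 1)
    (h2 : ∀ b, b < p → ∀ c ∈ C, ∃ h : (df τ)^[b] c ∈ C, g ⟨(df τ)^[b] c, h⟩ ∈ FI X a (wt l b))
    (n : ℕ) (y : C) (hy : hm n (y : K) ∈ RR k τ p 𝔓 l C) : g y ∈ FI X a n := by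
  let F : ℕ → Set K := fun n => {x | ∃ h : x ∈ C, g ⟨x, h⟩ ∈ FI X a n}
  have hF1 : ∀ x ∈ C, x ∈ F 0 := by
    intro x hx
    refine ⟨hx, ?_⟩
    rw [FI_zero]
    trivial
  have key := coeff_filt (k := k) F ?_ ?_ ?_ ?_ ?_ _ ?_ (hm n (y : K)) hy n
  · rw [coeff_hm_same, Int.toNat_natCast] at key
    obtain ⟨h1, h2⟩ := key
    exact h2
  · intro n
    refine ⟨C.zero_mem, ?_⟩
    have h1 : (⟨0, C.zero_mem⟩ : C) = 0 := rfl
    rw [h1, map_zero]
    exact Ideal.zero_mem _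
  · rintro n x y ⟨hx, hx'⟩ ⟨hy, hy'⟩
    refine ⟨C.add_mem hx hy, ?_⟩
    have h1 : (⟨x + y, C.add_mem hx hy⟩ : C) = ⟨x, hx⟩ + ⟨y, hy⟩ := rfl
    rw [h1, map_add]
    exact Ideal.add_mem _ hx' hy'
  · rintro m n x y ⟨hx, hx'⟩ ⟨hy, hy'⟩
    refine ⟨C.mul_mem hx hy, ?_⟩
    have h1 : (⟨x * y, C.mul_mem hx hy⟩ : C) = ⟨x, hx⟩ * ⟨y, hy⟩ := rfl
    rw [h1, map_mul]
    exact FI_mul _ _ hx' hy'
  · rintro m n hmn x ⟨hx, hx'⟩
    exact ⟨hx, FI_anti _ _ hmn hx'⟩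
  · intro c
    rw [IsScalarTower.algebraMap_apply k O K]
    exact hF1 _ (C.algebraMap_mem _)
  · intro f hf
    rcases hf with (hf | ⟨e, he, hf⟩) | ⟨b, c, hc, hb, hf⟩
    · refine ⟨-1, 1, ?_, hf⟩
      have h3 : (-1 : ℤ).toNat = 0 := by decide
      rw [h3]
      exact hF1 _ C.one_mem
    · refine ⟨1, algebraMap O K e, ?_, hf⟩
      have h3 : (1 : ℤ).toNat = 1 := by decide
      rw [h3]
      refine ⟨C.algebraMap_mem e, ?_⟩
      have h4 : (⟨algebraMap O K e, C.algebraMap_mem e⟩ : C) = algebraMap O C e := rfl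
      rw [h4]
      exact h1 e he
    · refine ⟨wt l b, (df τ)^[b] c, ?_, hf⟩
      rw [Int.toNat_natCast]
      exact h2 b hb c hc

/-- The condition of the chart lemma at a point of the centre. -/
theorem local_cond (hCOORD : S_COORD) (hTRA : S_TRA) (hETC : S_ETC) (hETI : S_ETI)
    (hUNR : S_UNR) (hTAY : S_TAY)
    (hW : WSet k O K p τ t 𝔓 l) {A : ℕ → Subalgebra O K}
    (hA : ∀ i x, x ∈ A i → τ x ∈ A (i + 1)) (hp : ∀ i, A (i + p) = A i)
    (hft : ∀ i, Algebra.FiniteType O (A i))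
    (hld : ∀ s, 0 < s → s < p → (CC A s).LinearDisjoint (A s))
    (hrg : IsRegularRing (CC A p)) (hsm : ∀ (q : Ideal (A 0)) [q.IsPrime],
      q.comap (algebraMap O (A 0)) = 𝔓 → Algebra.IsSmoothAt O q)
    (hC : ∀ c ∈ CC A p, τ c ∈ CC A p) (Q : Ideal (CC A p)) [hQp : Q.IsPrime]
    (hQ : ∀ (n : ℕ) (y : CC A p), 0 < n → hm n (y : K) ∈ RR k τ p 𝔓 l (CC A p) → y ∈ Q) :
    ∃ (ι : Type) (_ : Fintype ι) (x : ι → CC A p) (a : ι → ℕ),
      (∀ i, 0 < a i ∧ hm (a i) (x i : K) ∈ RR k τ p 𝔓 l (CC A p)) ∧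
      Ind (fun i => algebraMap (CC A p) (Localization.AtPrime Q) (x i)) ∧
      ∀ (n : ℕ) (y : CC A p), hm n (y : K) ∈ RR k τ p 𝔓 l (CC A p) →
        algebraMap (CC A p) (Localization.AtPrime Q) y ∈
          FI (fun i => algebraMap (CC A p) (Localization.AtPrime Q) (x i)) a n := by
  have h0 := hW.pp.pos
  have hQe : ∀ e ∈ 𝔓, algebraMap O (CC A p) e ∈ Q := by
    intro e he
    refine hQ 1 _ one_pos ?_
    rw [Nat.cast_one]
    exact RR_e he
  have hne : 𝔓 ≠ ⊤ := by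
    intro h
    have h1 : (1 : O) ∈ 𝔓 := by rw [h]; trivial
    have h2 := hQe 1 h1
    rw [map_one] at h2
    exact hQp.ne_top ((Ideal.eq_top_iff_one _).2 h2)
  have hmax := hW.mx.resolve_right hne
  have hpr : (Q.comap (algebraMap O (CC A p))).IsPrime := Ideal.comap_isPrime _ _
  have hQ𝔓 : Q.comap (algebraMap O (CC A p)) = 𝔓 := (hmax.eq_of_le hpr.ne_top hQe).symm
  have hσ : ∀ c, sg τ (CC A p) hC c - c ∈ Q := by
    intro c
    refine hQ (wt l 1) _ (wt_pos one_pos) ?_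
    have h1 := RR_del (k := k) (τ := τ) (p := p) (l := l) (𝔓 := 𝔓) hW.pp.one_lt c.2
    exact h1
  obtain ⟨π, r, u, hπ, hπ2, hun, hind⟩ := coords hCOORD hTRA hETC hETI hW hA hp hft hld hrg hsm hC
    Q hσ hQ𝔓 hne
  obtain ⟨hpow, hfil⟩ := filtr hUNR hTAY hW hA hp hrg hC Q hσ hQ𝔓 hπ hπ2 hun
  refine ⟨WI r p, inferInstance, wx (sg τ (CC A p) hC) p (algebraMap O (CC A p) π)
    (fun j => Subalgebra.inclusion (le_CC A hW.pp.pos) (u j)), wv l r p, ?_, hind, ?_⟩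
  · intro i
    cases i with
    | none =>
      refine ⟨one_pos, ?_⟩
      change hm ((1 : ℕ) : ℤ) (algebraMap O K π) ∈ _
      rw [Nat.cast_one]
      exact RR_e hπ
    | some ja =>
      obtain ⟨j, a⟩ := ja
      refine ⟨wt_pos (Nat.succ_pos _), ?_⟩
      change hm (wt l (a + 1) : ℕ) (((df (sg τ (CC A p) hC))^[(a : ℕ) + 1]
        (Subalgebra.inclusion (le_CC A hW.pp.pos) (u j)) : CC A p) : K) ∈ _
      rw [sg_df]
      refine RR_del ?_ ?_
      · have := a.2; omega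
      · exact (Subalgebra.inclusion (le_CC A hW.pp.pos) (u j)).2
  · intro n y hy
    refine filt_gen (algebraMap (CC A p) (Localization.AtPrime Q)) _ _ ?_ ?_ n y hy
    · intro e he
      obtain ⟨c, hc⟩ := hpow 1 e (by rwa [pow_one])
      rw [pow_one] at hc
      rw [hc]
      refine Ideal.mul_mem_right _ _ ?_
      exact FI_gen _ (wv l r p) none
    · intro a ha c hc
      have h1 := hfil a ha ⟨c, hc⟩
      have h2 : (df τ)^[a] c ∈ CC A p := by
        rw [← sg_df (hC := hC) a ⟨c, hc⟩]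
        exact ((df (sg τ (CC A p) hC))^[a] ⟨c, hc⟩).2
      refine ⟨h2, ?_⟩
      have h3 : (⟨(df τ)^[a] c, h2⟩ : CC A p) = (df (sg τ (CC A p) hC))^[a] ⟨c, hc⟩ := by
        apply Subtype.ext
        rw [sg_df]
      rw [h3]
      exact h1

end

/-- **The weighted blowup of a chart.** -/
theorem t_WCHART : S_RFT → S_RSTAB → S_RPRIN → S_WCH → S_COORD → S_TRA → S_ETC → S_ETI → S_UNR →
    S_TAY → S_WCHART := by
  intro hRFT hRSTAB hRPRIN hWCH hCOORD hTRA hETC hETI hUNR hTAY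
  intro k O K _ _ _ _ _ _ _ _ _ _ p τ t 𝔓 l hW A hA hp hft hld hrg hsm
  have h0 := hW.pp.pos
  have hC : ∀ c ∈ CC A p, τ c ∈ CC A p := CC_stab hA hp (t : O → O) hW.com
  have hftC : Algebra.FiniteType O (CC A p) := ft_CC hft
  have hR : Algebra.FiniteType k (RR k τ p 𝔓 l (CC A p)) :=
    hRFT k O K p τ t 𝔓 l hW (CC A p) hC hftC
  have hns : IsNoetherianRing (RR k τ p 𝔓 l (CC A p)) := Algebra.FiniteType.isNoetherianRing k _
  have hreg : IsRegularRing (RR k τ p 𝔓 l (CC A p)) := by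
    refine hWCH k K (RR k τ p 𝔓 l (CC A p)) hns RR_gr RR_s (fun d x h => RR_cf h0 hC h) (CC A p)
      ((CC A p).val : CC A p →+* K) Subtype.val_injective ?_ hrg ?_
    · intro y
      constructor
      · intro h
        exact ⟨⟨y, RR_mem_C hC h⟩, rfl⟩
      · rintro ⟨c, rfl⟩
        exact RR_c h0 c.2
    · intro Q hQp hQ
      exact local_cond hCOORD hTRA hETC hETI hUNR hTAY hW hA hp hft hld hrg hsm hC Q hQ
  refine ⟨⟨hR, RR_gr, RR_s, fun d x h => RR_cf h0 hC h, ?_, ?_⟩, ?_, ?_⟩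
  · obtain ⟨e, he, he0⟩ := Submodule.exists_mem_ne_zero_of_ne_bot hW.ne
    refine ⟨1, algebraMap O K e, one_pos, ?_, ?_⟩
    · intro h
      exact he0 (hW.inj (by rw [h, map_zero]))
    · rw [Nat.cast_one]
      exact RR_e he
  · intro e η he _ hη
    exact regular_loc hreg he (isUnit_hm hη)
  · intro f hf
    exact (hRSTAB k O K p τ t 𝔓 l hW (CC A p) hC f hf).1
  · exact hRPRIN k O K p τ t 𝔓 l hW (CC A p) hC

end Pool.Agent.Y614.WC
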