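import Pool.Agent.Y614.WC.A

/-!
# Étale coordinates of a product of conjugate charts
-/

set_option autoImplicit false
set_option linter.unusedSectionVars false
set_option linter.overlappingInstances false

namespace Pool.Agent.Y614.WC

open Pool.Agent.Y223.G IsLocalRing Pool.Agent.W418.LU2

section tau

variable {k O K : Type} [CommRing k] [CommRing O] [Field K] [Algebra O K] [Algebra k K]

/-- The restriction of `τ` to a stable subalgebra. -/
def sg (τ : K ≃ₐ[k] K) (C : Subalgebra O K) (hC : ∀ c ∈ C, τ c ∈ C) : C →+* C where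
  toFun c := ⟨τ c, hC c c.2⟩
  map_one' := Subtype.ext (map_one τ)
  map_mul' _ _ := Subtype.ext (map_mul τ _ _)
  map_zero' := Subtype.ext (map_zero τ)
  map_add' _ _ := Subtype.ext (map_add τ _ _)

variable {τ : K ≃ₐ[k] K} {C : Subalgebra O K} {hC : ∀ c ∈ C, τ c ∈ C}

lemma sg_coe (c : C) : ((sg τ C hC c : C) : K) = τ c := rfl

lemma sg_iter (n : ℕ) (c : C) : (((sg τ C hC)^[n] c : C) : K) = τ^[n] c := by
  induction n with
  | zero => rfl
  | succ n ih => rw [Function.iterate_succ_apply', Function.iterate_succ_apply', sg_coe, ih]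

lemma sg_df (n : ℕ) (c : C) : (((df (sg τ C hC))^[n] c : C) : K) = (df τ)^[n] c := by
  induction n with
  | zero => rfl
  | succ n ih =>
    rw [Function.iterate_succ_apply', Function.iterate_succ_apply']
    unfold df
    change τ _ - _ = _
    unfold df at ih
    rw [ih]

lemma iter_sub_mem {B : Type} [CommRing B] {Q : Ideal B} {σ : B →+* B} (h : ∀ c, σ c - c ∈ Q)
    (n : ℕ) (c : B) : σ^[n] c - c ∈ Q := by
  induction n with
  | zero => rw [Function.iterate_zero_apply, sub_self]; exact Q.zero_mem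
  | succ n ih =>
    rw [Function.iterate_succ_apply']
    have h1 : σ (σ^[n] c) - c = (σ (σ^[n] c) - σ^[n] c) + (σ^[n] c - c) := by ring
    rw [h1]
    exact Q.add_mem (h _) ih

lemma mem_iff_of_sub_mem {B : Type} [CommRing B] {Q : Ideal B} {x y : B} (h : x - y ∈ Q) :
    x ∈ Q ↔ y ∈ Q := by
  constructor
  · intro hx
    have h1 : y = x - (x - y) := by ring
    rw [h1]
    exact Q.sub_mem hx h
  · intro hy
    have h1 : x = (x - y) + y := by ring
    rw [h1]
    exact Q.add_mem h hy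

variable {A : ℕ → Subalgebra O K} {p : ℕ}

lemma tau_it (hA : ∀ i x, x ∈ A i → τ x ∈ A (i + 1)) (i n : ℕ) (x : K) (hx : x ∈ A i) :
    τ^[n] x ∈ A (i + n) := by
  induction n with
  | zero => exact hx
  | succ n ih =>
    rw [Function.iterate_succ_apply']
    exact hA _ _ ih

lemma tau_surj (hA : ∀ i x, x ∈ A i → τ x ∈ A (i + 1)) (hp : ∀ i, A (i + p) = A i) (h0 : 0 < p)
    (hτ : ∀ x, τ^[p] x = x) (i : ℕ) (x : K) (hx : x ∈ A (i + 1)) : ∃ y ∈ A i, τ y = x := by
  refine ⟨τ^[p - 1] x, ?_, ?_⟩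
  · have h1 := tau_it hA (i + 1) (p - 1) x hx
    have h2 : i + 1 + (p - 1) = i + p := by omega
    rwa [h2, hp] at h1
  · rw [← Function.iterate_succ_apply' τ (p - 1) x, Nat.succ_eq_add_one, Nat.sub_add_cancel h0, hτ]

lemma tau_surj_it (hA : ∀ i x, x ∈ A i → τ x ∈ A (i + 1)) (hp : ∀ i, A (i + p) = A i)
    (h0 : 0 < p) (hτ : ∀ x, τ^[p] x = x) (i : ℕ) (x : K) (hx : x ∈ A i) :
    ∃ y ∈ A 0, τ^[i] y = x := by
  induction i generalizing x with
  | zero => exact ⟨x, hx, rfl⟩
  | succ n ih =>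
    obtain ⟨z, hz, rfl⟩ := tau_surj hA hp h0 hτ n x hx
    obtain ⟨y, hy, rfl⟩ := ih z hz
    exact ⟨y, hy, Function.iterate_succ_apply' _ _ _⟩

/-- The isomorphism `τ^i` of `A 0` and `A i`. -/
noncomputable def ph (hA : ∀ i x, x ∈ A i → τ x ∈ A (i + 1)) (hp : ∀ i, A (i + p) = A i)
    (h0 : 0 < p) (hτ : ∀ x, τ^[p] x = x) (i : ℕ) : A 0 ≃+* A i :=
  RingEquiv.ofBijective
    ({ toFun := fun x => ⟨τ^[i] x, by
          have h1 := tau_it hA 0 i x x.2
          rwa [zero_add] at h1⟩
       map_one' := Subtype.ext (iterate_map_one τ i)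
       map_mul' := fun _ _ => Subtype.ext (iterate_map_mul τ i _ _)
       map_zero' := Subtype.ext (iterate_map_zero τ i)
       map_add' := fun _ _ => Subtype.ext (iterate_map_add τ i _ _) } : A 0 →+* A i) (by
    constructor
    · intro x y h
      have h1 : τ^[i] (x : K) = τ^[i] (y : K) := congrArg Subtype.val h
      exact Subtype.ext ((EquivLike.injective τ).iterate i h1)
    · intro x
      obtain ⟨y, hy, h⟩ := tau_surj_it hA hp h0 hτ i x x.2
      exact ⟨⟨y, hy⟩, Subtype.ext h⟩)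

lemma ph_coe (hA : ∀ i x, x ∈ A i → τ x ∈ A (i + 1)) (hp : ∀ i, A (i + p) = A i)
    (h0 : 0 < p) (hτ : ∀ x, τ^[p] x = x) (i : ℕ) (x : A 0) :
    ((ph hA hp h0 hτ i x : A i) : K) = τ^[i] x := rfl

/-- The iterates of an automorphism of the base. -/
def te (t : O ≃+* O) : ℕ → (O ≃+* O)
  | 0 => RingEquiv.refl O
  | n + 1 => (te t n).trans t

lemma te_com (t : O ≃+* O) (ht : ∀ o, τ (algebraMap O K o) = algebraMap O K (t o)) (i : ℕ)
    (o : O) : τ^[i] (algebraMap O K o) = algebraMap O K (te t i o) := by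
  induction i with
  | zero => rfl
  | succ n ih =>
    rw [Function.iterate_succ_apply', ih, ht]
    rfl

lemma CC_stab (hA : ∀ i x, x ∈ A i → τ x ∈ A (i + 1)) (hp : ∀ i, A (i + p) = A i)
    (t : O → O) (ht : ∀ o, τ (algebraMap O K o) = algebraMap O K (t o)) :
    ∀ c ∈ CC A p, τ c ∈ CC A p := by
  intro c hc
  refine Algebra.iSup_induction (fun i : Fin p => A i) (motive := fun x => τ x ∈ CC A p) hc
    ?_ ?_ ?_ ?_
  · intro i a ha
    have h1 := hA i a ha
    by_cases hi : (i : ℕ) + 1 < p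
    · exact le_CC A hi h1
    · have h2 : (i : ℕ) + 1 = 0 + p := by have := i.2; omega
      rw [h2, hp] at h1
      exact le_CC A (lt_of_le_of_lt (Nat.zero_le _) i.2) h1
  · intro a b ha hb
    rw [map_add]
    exact (CC A p).add_mem ha hb
  · intro a b ha hb
    rw [map_mul]
    exact (CC A p).mul_mem ha hb
  · intro r
    rw [ht]
    exact (CC A p).algebraMap_mem _

lemma le_CC' (hp : ∀ i, A (i + p) = A i) (h0 : 0 < p) (i : ℕ) : A i ≤ CC A p := by
  have h1 : Function.Periodic A p := hp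
  rw [← h1.map_mod_nat i]
  exact le_CC A (Nat.mod_lt i h0)

lemma ft_CC (hft : ∀ i, Algebra.FiniteType O (A i)) : Algebra.FiniteType O (CC A p) := by
  rw [← Subalgebra.fg_iff_finiteType]
  exact fg_iSup _ fun i => (Subalgebra.fg_iff_finiteType _).2 (hft i)

end tau

end Pool.Agent.Y614.WC
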