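import Pool.Agent.Y614.WC.B

/-!
# Étale coordinates of a product of conjugate charts
-/

set_option autoImplicit false
set_option linter.unusedSectionVars false
set_option linter.overlappingInstances false

namespace Pool.Agent.Y614.WC

open Pool.Agent.Y223.G IsLocalRing Pool.Agent.W418.LU2

set_option maxHeartbeats 400000

section coords

variable {k O K : Type} [CommRing k] [CommRing O] [IsDomain O]
  [IsDedekindDomain O] [Field K] [Algebra k O] [Algebra O K] [Algebra k K] [IsScalarTower k O K]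
  {p : ℕ} {τ : K ≃ₐ[k] K} {t : O ≃ₐ[k] O} {𝔓 : Ideal O} {l : ℕ}

/-- Étale coordinates and regular parameters. -/
theorem coords (hCOORD : S_COORD) (hTRA : S_TRA) (hETC : S_ETC) (hETI : S_ETI)
    (hW : WSet k O K p τ t 𝔓 l) {A : ℕ → Subalgebra O K}
    (hA : ∀ i x, x ∈ A i → τ x ∈ A (i + 1)) (hp : ∀ i, A (i + p) = A i)
    (hft : ∀ i, Algebra.FiniteType O (A i))
    (hld : ∀ s, 0 < s → s < p → (CC A s).LinearDisjoint (A s))
    (hrg : IsRegularRing (CC A p)) (hsm : ∀ (q : Ideal (A 0)) [q.IsPrime],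
      q.comap (algebraMap O (A 0)) = 𝔓 → Algebra.IsSmoothAt O q)
    (hC : ∀ c ∈ CC A p, τ c ∈ CC A p) (Q : Ideal (CC A p)) [Q.IsPrime]
    (hσ : ∀ c, sg τ (CC A p) hC c - c ∈ Q) (hQ : Q.comap (algebraMap O (CC A p)) = 𝔓)
    (hne : 𝔓 ≠ ⊤) :
    ∃ (π : O) (r : ℕ) (u : Fin r → A 0), π ∈ 𝔓 ∧ π ∉ 𝔓 ^ 2 ∧
      UNQ (A 0) (Q.comap (Subalgebra.inclusion (le_CC A hW.pp.pos) : A 0 →+* CC A p)) u ∧
      Ind (fun i => algebraMap (CC A p) (Localization.AtPrime Q)
        (wx (sg τ (CC A p) hC) p (algebraMap O (CC A p) π)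
          (fun j => Subalgebra.inclusion (le_CC A hW.pp.pos) (u j)) i)) := by
  have h0 := hW.pp.pos
  let q : Ideal (A 0) := Q.comap (Subalgebra.inclusion (le_CC A h0) : A 0 →+* CC A p)
  have hq : q.IsPrime := Ideal.comap_isPrime _ _
  have hq𝔓 : q.comap (algebraMap O (A 0)) = 𝔓 := by
    rw [← hQ]
    rfl
  obtain ⟨π, hπ, hπ'⟩ := hW.un hne
  have hπ2 : π ∉ 𝔓 ^ 2 := not_mem_sq (t : O →+* O) hW.dv hπ'
  obtain ⟨r, u, hu, hun⟩ := hCOORD O K (A 0) (hft 0) q (hsm q hq𝔓)
  refine ⟨π, r, u, hπ, hπ2, hun, ?_⟩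
  let U : ∀ i, Fin r → A i := fun i j => ph hA hp h0 hW.ord i (u j)
  have hU : ∀ i (hi : i < p),
      EtAt (A i) (Q.comap (Subalgebra.inclusion (le_CC A hi) : A i →+* CC A p)) (U i) := by
    intro i hi
    refine hTRA O K (A 0) (A i) (te (t : O ≃+* O) i) (ph hA hp h0 hW.ord i) ?_ _ (Fin r) u ?_
    · intro o
      apply Subtype.ext
      rw [ph_coe]
      exact te_com (t : O ≃+* O) hW.com i o
    · have h1 : (Q.comap (Subalgebra.inclusion (le_CC A hi) : A i →+* CC A p)).comap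
          (ph hA hp h0 hW.ord i : A 0 →+* A i) = q := by
        ext x
        change (Subalgebra.inclusion (le_CC A hi) (ph hA hp h0 hW.ord i x) : CC A p) ∈ Q ↔
          (Subalgebra.inclusion (le_CC A h0) x : CC A p) ∈ Q
        have h2 : (Subalgebra.inclusion (le_CC A hi) (ph hA hp h0 hW.ord i x) : CC A p) =
            (sg τ (CC A p) hC)^[i] (Subalgebra.inclusion (le_CC A h0) x) := by
          apply Subtype.ext
          rw [sg_iter]
          rfl
        rw [h2]
        exact mem_iff_of_sub_mem (iter_sub_mem hσ i _)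
      rw [h1]
      exact hu
  have h3 := hETC O K A p h0 hld Q r U hU
  have h4 : (fun ij : Fin p × Fin r => (Subalgebra.inclusion (le_CC A ij.1.2) (U ij.1 ij.2) :
      CC A p)) = fun ij : Fin p × Fin r => (sg τ (CC A p) hC)^[ij.1]
        ((fun j => (Subalgebra.inclusion (le_CC A h0) (u j) : CC A p)) ij.2) := by
    funext ij
    apply Subtype.ext
    rw [sg_iter]
    rfl
  rw [h4] at h3
  have hmax : 𝔓.IsMaximal := hW.mx.resolve_right hne
  have h5 := hETI O K (CC A p) (ft_CC hft) hrg Q (sg τ (CC A p) hC) hσ p r h0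
    (fun j => (Subalgebra.inclusion (le_CC A h0) (u j) : CC A p)) h3 𝔓 hmax hW.ne π hπ hπ2 hQ
  exact h5

end coords

end Pool.Agent.Y614.WC
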